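import Mathlib

namespace Pool.Agent.Results.MP_c457a4_an.InftySum

/-- slices of the closed unit ball -/
def IsSlice (𝕜 : Type) [RCLike 𝕜] {X : Type} [NormedAddCommGroup X] [NormedSpace 𝕜 X]
    (S : Set X) : Prop :=
  ∃ (f : StrongDual 𝕜 X) (α : ℝ), ‖f‖ = 1 ∧ 0 < α ∧
    S = {z | ‖z‖ ≤ 1 ∧ 1 - α < RCLike.re (f z)}

/-- convex combinations of slices -/
def IsCCS (𝕜 : Type) [RCLike 𝕜] {X : Type} [NormedAddCommGroup X] [NormedSpace 𝕜 X]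
    (C : Set X) : Prop :=
  ∃ (n : ℕ) (l : Fin n → ℝ) (S : Fin n → Set X), 1 ≤ n ∧ (∀ i, 0 ≤ l i) ∧ ∑ i, l i = 1 ∧
    (∀ i, IsSlice 𝕜 (S i)) ∧
    C = {w | ∃ z : Fin n → X, (∀ i, z i ∈ S i) ∧ w = ∑ i, (l i : 𝕜) • z i}

/-- ccs Delta points -/
def IsCCSDelta (𝕜 : Type) [RCLike 𝕜] {X : Type} [NormedAddCommGroup X] [NormedSpace 𝕜 X]
    (x : X) : Prop :=
  ‖x‖ = 1 ∧ ∀ C : Set X, IsCCS 𝕜 C → x ∈ C → IsLUB ((fun z => ‖x - z‖) '' C) 2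

variable {𝕜 : Type} [RCLike 𝕜]

lemma norm_le_of_ccs {X : Type} [NormedAddCommGroup X] [NormedSpace 𝕜 X] {C : Set X}
    (hC : IsCCS 𝕜 C) {w : X} (hw : w ∈ C) : ‖w‖ ≤ 1 := by
  obtain ⟨n, l, S, -, hl, hs, hS, rfl⟩ := hC
  obtain ⟨z, hz, rfl⟩ := hw
  refine (norm_sum_le _ _).trans (le_trans (Finset.sum_le_sum fun i _ => ?_) hs.le)
  obtain ⟨f, α, -, -, e⟩ := hS i
  have h1 := hz i
  rw [e] at h1
  rw [norm_smul, RCLike.norm_ofReal, abs_of_nonneg (hl i)]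
  exact mul_le_of_le_one_right (hl i) h1.1

lemma pull {X Z : Type} [NormedAddCommGroup X] [NormedSpace 𝕜 X] [NormedAddCommGroup Z]
    [NormedSpace 𝕜 Z] (P : Z →L[𝕜] X) (J : X →L[𝕜] Z) (hPJ : ∀ u, P (J u) = u)
    (hP : ∀ z, ‖P z‖ ≤ ‖z‖) (hrep : ∀ z u, ‖z‖ ≤ 1 → ‖u‖ ≤ 1 → ‖z + J (u - P z)‖ ≤ 1)
    (p : Z) (hp : ‖p‖ = 1) (hx : IsCCSDelta 𝕜 (P p)) : IsCCSDelta 𝕜 p := by
  refine ⟨hp, fun C hC hpC => ⟨?_, fun b hb => ?_⟩⟩
  · rintro _ ⟨w, hw, rfl⟩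
    have := norm_le_of_ccs hC hw
    linarith [norm_sub_le p w]
  obtain ⟨n, l, S, hn, hl, hs, hS, rfl⟩ := hC
  obtain ⟨z, hz, hpz⟩ := hpC
  have key : ∀ i, ∃ T : Set X, IsSlice 𝕜 T ∧ P (z i) ∈ T ∧ ∀ u ∈ T, z i + J (u - P (z i)) ∈ S i := by
    intro i
    obtain ⟨f, α, hf, hα, e⟩ := hS i
    have h1 := hz i
    rw [e] at h1 ⊢
    have hPz : ‖P (z i)‖ ≤ 1 := (hP _).trans h1.1
    by_cases hg : f.comp J = 0
    · obtain ⟨g, hg1, -⟩ := exists_dual_vector 𝕜 (P p) (by rw [hx.1]; norm_num)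
      refine ⟨_, ⟨g, 3, hg1, by norm_num, rfl⟩, ⟨hPz, ?_⟩, fun u hu => ⟨hrep _ _ h1.1 hu.1, ?_⟩⟩
      · have a1 := RCLike.abs_re_le_norm (g (P (z i)))
        have a2 := g.le_opNorm (P (z i))
        rw [hg1] at a2
        linarith [(abs_le.1 a1).1]
      · have : f (J (u - P (z i))) = 0 := by
          simpa using congrArg (fun h : X →L[𝕜] 𝕜 => h (u - P (z i))) hg
        rw [map_add, this, add_zero]
        exact h1.2
    · obtain ⟨g, hg'⟩ : ∃ g : StrongDual 𝕜 X, g = f.comp J := ⟨_, rfl⟩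
      rw [← hg'] at hg
      have hN : 0 < ‖g‖ := norm_pos_iff.2 hg
      have a1 := RCLike.re_le_norm (g (P (z i)))
      have a2 := g.le_opNorm (P (z i))
      have a3 : ‖g‖ * ‖P (z i)‖ ≤ ‖g‖ := mul_le_of_le_one_right hN.le hPz
      have h12 := h1.2
      have hre : ∀ u, RCLike.re ((((‖g‖⁻¹ : ℝ) : 𝕜) • g) u) = RCLike.re (g u) / ‖g‖ := by
        intro u
        rw [smul_apply, smul_eq_mul, RCLike.re_ofReal_mul, div_eq_inv_mul]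
      refine ⟨_, ⟨((‖g‖⁻¹ : ℝ) : 𝕜) • g,
        1 - (1 - α - RCLike.re (f (z i)) + RCLike.re (g (P (z i)))) / ‖g‖, ?_, ?_, rfl⟩,
        ⟨hPz, ?_⟩, fun u hu => ⟨hrep _ _ h1.1 hu.1, ?_⟩⟩
      · rw [norm_smul, RCLike.norm_ofReal, abs_of_pos (inv_pos.2 hN), inv_mul_cancel₀ hN.ne']
      · rw [sub_pos, div_lt_one hN]
        linarith
      · rw [hre, sub_sub_cancel, div_lt_div_iff_of_pos_right hN]
        linarith
      · have h2 := hu.2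
        rw [hre, sub_sub_cancel, div_lt_div_iff_of_pos_right hN] at h2
        have : f (J (u - P (z i))) = g u - g (P (z i)) := by
          rw [hg', ← map_sub]; rfl
        rw [map_add, this, map_add, map_sub]
        linarith
  choose T hT1 hT2 hT3 using key
  have hPp : P p = ∑ i, (l i : 𝕜) • P (z i) := by
    rw [hpz, map_sum]; simp only [map_smul]
  refine (hx.2 _ ⟨n, l, T, hn, hl, hs, hT1, rfl⟩ ⟨fun i => P (z i), hT2, hPp⟩).2 ?_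
  rintro _ ⟨_, ⟨u, hu, rfl⟩, rfl⟩
  have h1 := hb ⟨_, ⟨fun i => z i + J (u i - P (z i)), fun i => hT3 i _ (hu i), rfl⟩, rfl⟩
  refine le_trans (le_of_eq ?_) ((hP _).trans h1)
  simp only [map_sub, map_sum, map_smul, map_add, hPJ, add_sub_cancel]

theorem result (𝕜 : Type) [RCLike 𝕜] (X Y : Type) [NormedAddCommGroup X] [NormedSpace 𝕜 X]
    [CompleteSpace X] [NormedAddCommGroup Y] [NormedSpace 𝕜 Y] [CompleteSpace Y]
    (x : X) (y : Y) (hx : IsCCSDelta 𝕜 x) (hy : IsCCSDelta 𝕜 y) (a b : ℝ)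
    (ha : a ∈ Set.Icc (0 : ℝ) 1) (hb : b ∈ Set.Icc (0 : ℝ) 1) (hab : max a b = 1) :
    IsCCSDelta 𝕜 (((a : 𝕜) • x, (b : 𝕜) • y) : X × Y) := by
  have hn : ‖(((a : 𝕜) • x, (b : 𝕜) • y) : X × Y)‖ = 1 := by
    rw [Prod.norm_mk, norm_smul, norm_smul, hx.1, hy.1, RCLike.norm_ofReal, RCLike.norm_ofReal,
      abs_of_nonneg ha.1, abs_of_nonneg hb.1, mul_one, mul_one, hab]
  rcases max_eq_iff.1 hab with ⟨h, -⟩ | ⟨h, -⟩
  · refine pull (ContinuousLinearMap.fst 𝕜 X Y) (ContinuousLinearMap.inl 𝕜 X Y) (fun u => rfl)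
      (fun z => norm_fst_le z) (fun z u hz hu => ?_) _ hn (by simpa [h] using hx)
    rw [Prod.norm_def]
    exact max_le (by simpa using hu) (by simpa using (norm_snd_le z).trans hz)
  · refine pull (ContinuousLinearMap.snd 𝕜 X Y) (ContinuousLinearMap.inr 𝕜 X Y) (fun u => rfl)
      (fun z => norm_snd_le z) (fun z u hz hu => ?_) _ hn (by simpa [h] using hy)
    rw [Prod.norm_def]
    exact max_le (by simpa using (norm_fst_le z).trans hz) (by simpa using hu)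

end Pool.Agent.Results.MP_c457a4_an.InftySum
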